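import Pool.Agent.Q103.EC.Nvc
import Pool.Agent.Q103.EC.Hyp

/-!
# Fields of definition of a map up to conjugation

`K` is the function field of a variety `X` over `k`, `p / q` a rational map over `K` of degree `d`. A
field `F` between `k` and `K` corresponds to a dominant rational map `X ⇢ Y`, `Y` of dimension the
transcendence degree of `F`.
-/

set_option autoImplicit false

namespace Pool.Agent.Q103.VR

open Finset Polynomial
open Pool.Agent.Q41.SU
open Pool.Agent.Q41.GT
open Pool.Agent.W277.UH (ratP1 ratP1_some ratP1_some0 ratP1_none ratP1_none0)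
open Pool.Agent.Q68.GT (cp three cp_conj cp_coprime cp_max mob_inv)
open Pool.Agent.Q103.EC

/-- The map `p / q` of degree `d` over `K` is defined over the algebraic closure of the field `F`
(between `k` and `K`) up to conjugation: it is conjugate, by the Moebius map `(a z + b) / (c z + e)`
over an algebraic closure of `K`, to a map `p' / q'` whose coefficients are algebraic over `F`. -/
def DefinedOver {k K : Type} [Field k] [Field K] [Algebra k K] (d : ℕ) (p q : K[X])
    (F : IntermediateField k K) : Prop :=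
  ∃ (p' q' : (AlgebraicClosure K)[X]) (a b c e : AlgebraicClosure K),
    a * e - b * c ≠ 0 ∧ IsCoprime p' q' ∧ max p'.natDegree q'.natDegree = d ∧
    (∀ i, IsAlgebraic F (p'.coeff i) ∧ IsAlgebraic F (q'.coeff i)) ∧
    ∀ y, ratP1 (C a * X + C b) (C c * X + C e) 1
        (ratP1 (p.map (algebraMap K (AlgebraicClosure K)))
          (q.map (algebraMap K (AlgebraicClosure K))) d y) =
      ratP1 p' q' d (ratP1 (C a * X + C b) (C c * X + C e) 1 y)

/-- the ratios of the coefficients of a normalised map are algebraic over every field over which the map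
is defined up to conjugation -/
theorem rats_alg_of_normal {k K : Type} [Field k] [CharZero k] [Field K] [Algebra k K] {d : ℕ}
    (hd : 2 ≤ d) {p q : K[X]} (hco : IsCoprime p q) (hmax : max p.natDegree q.natDegree = d)
    (h3 : ∀ z : Option K, z = none ∨ z = some 0 ∨ z = some 1 → z ∈ prePer d p q)
    {F : IntermediateField k K} (hdef : DefinedOver d p q F) : ∀ r ∈ rats p q, IsAlgebraic F r := by
  classical
  obtain ⟨p', q', a, b, c, e, hdet, hco', hmax', hF, hconj⟩ := hdef
  set φ := algebraMap K (AlgebraicClosure K) with hφ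
  set k' := algebraicClosure F (AlgebraicClosure K) with hk'
  have : IsAlgClosed k' := IsAlgClosure.isAlgClosed F
  set ψ := algebraMap k' (AlgebraicClosure K) with hψ
  have : CharZero K := charZero_of_injective_algebraMap (algebraMap k K).injective
  have : CharZero (AlgebraicClosure K) := charZero_of_injective_algebraMap φ.injective
  have hinf : Infinite (AlgebraicClosure K) := CharZero.infinite _
  have hd1 : 1 ≤ d := by omega
  -- `p'`, `q'` are defined over `k'`
  have hlift : ∀ g : (AlgebraicClosure K)[X], (∀ i, IsAlgebraic F (g.coeff i)) → ∃ g' : k'[X], g'.map ψ = g := by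
    intro g hg
    have : g ∈ Polynomial.lifts ψ := by
      rw [Polynomial.lifts_iff_coeff_lifts]
      intro i
      exact ⟨⟨g.coeff i, mem_algebraicClosure_iff.2 (hg i)⟩, rfl⟩
    obtain ⟨g', hg'⟩ := this
    exact ⟨g', hg'⟩
  obtain ⟨u, hu⟩ := hlift p' fun i => (hF i).1
  obtain ⟨w, hw⟩ := hlift q' fun i => (hF i).2
  have hcouw : IsCoprime u w := by
    rw [← Polynomial.isCoprime_map ψ, hu, hw]
    exact hco'
  have hmaxuw : max u.natDegree w.natDegree = d := by
    rw [← natDegree_map ψ, ← natDegree_map (p := w) ψ, hu, hw, hmax']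
  set M : Option (AlgebraicClosure K) → Option (AlgebraicClosure K) := ratP1 (C a * X + C b) (C c * X + C e) 1 with hM
  have hMinj : Function.Injective M := Function.LeftInverse.injective (mob_inv hdet)
  -- the images of preperiodic points are in `P^1(k')`
  have hsemi : Function.Semiconj M (ratP1 (p.map φ) (q.map φ) d) (ratP1 p' q' d) := hconj
  have himg : ∀ z : Option K, z ∈ prePer d p q → ∃ y : Option k', Option.map ψ y =
      M (Option.map φ z) := by
    intro z hz
    have h1 : M (Option.map φ z) ∈ prePer d p' q' := by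
      have hs : Function.Semiconj (Option.map φ) (ratP1 p q d) (ratP1 (p.map φ) (q.map φ) d) :=
        fun y => ratP1_map φ d p q y
      have h2 : (Set.range fun m : ℕ => (ratP1 p' q' d)^[m] (M (Option.map φ z))) ⊆
          (fun y => M (Option.map φ y)) '' (Set.range fun m : ℕ => (ratP1 p q d)^[m] z) := by
        rintro _ ⟨m, rfl⟩
        refine ⟨_, ⟨m, rfl⟩, ?_⟩
        have e1 := (hs.iterate_right m).eq z
        have e2 := (hsemi.iterate_right m).eq (Option.map φ z)
        simp only
        rw [e1, e2]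
      exact (Set.Finite.image _ hz).subset h2
    cases h0 : M (Option.map φ z) with
    | none => exact ⟨none, rfl⟩
    | some s =>
      rw [h0, ← hu, ← hw] at h1
      have h2 : IsAlgebraic k' s := alg_of_prePer hd hcouw hmaxuw h1
      have h3 : IsAlgebraic F s := by
        have : Algebra.IsAlgebraic F k' := inferInstance
        exact h2.restrictScalars F
      exact ⟨some ⟨s, mem_algebraicClosure_iff.2 h3⟩, rfl⟩
  obtain ⟨y0, hy0⟩ := himg none (h3 _ (Or.inl rfl))
  obtain ⟨y1, hy1⟩ := himg (some 0) (h3 _ (Or.inr (Or.inl rfl)))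
  obtain ⟨y2, hy2⟩ := himg (some 1) (h3 _ (Or.inr (Or.inr rfl)))
  rw [Option.map_none] at hy0
  rw [Option.map_some, map_zero] at hy1
  rw [Option.map_some, map_one] at hy2
  have n01 : y0 ≠ y1 := by
    intro h
    rw [h, hy1] at hy0
    exact absurd (hMinj hy0) (by simp)
  have n02 : y0 ≠ y2 := by
    intro h
    rw [h, hy2] at hy0
    exact absurd (hMinj hy0) (by simp)
  have n12 : y1 ≠ y2 := by
    intro h
    rw [h, hy2] at hy1
    have := hMinj hy1
    exact one_ne_zero (Option.some_inj.1 this)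
  obtain ⟨a', b', c', e', hdet', g0, g1, g2⟩ := three n01 n02 n12
  set N : Option (AlgebraicClosure K) → Option (AlgebraicClosure K) := ratP1 (C (ψ a') * X + C (ψ b')) (C (ψ c') * X + C (ψ e')) 1
    with hN
  have hNmap : ∀ y : Option k', N (Option.map ψ y) =
      Option.map ψ (ratP1 (C a' * X + C b') (C c' * X + C e') 1 y) := by
    intro y
    rw [ratP1_map, hN]
    congr 1 <;> simp
  have hdetψ : ψ a' * ψ e' - ψ b' * ψ c' ≠ 0 := by
    rw [← map_mul, ← map_mul, ← map_sub]
    exact (map_ne_zero ψ).2 hdet'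
  -- `N ∘ M` is the identity
  set α := ψ a' * a + ψ b' * c with hα
  set β := ψ a' * b + ψ b' * e with hβ
  set γ := ψ c' * a + ψ e' * c with hγ
  set δ := ψ c' * b + ψ e' * e with hδ
  have hNM : ∀ y, N (M y) = ratP1 (C α * X + C β) (C γ * X + C δ) 1 y := by
    intro y
    obtain ⟨V, hV, rfl⟩ := Pool.Agent.Q68.GT.exists_ptp y
    rw [hN, hM, Pool.Agent.Q68.GT.mob_ptp _ _ _ _ hV, Pool.Agent.Q68.GT.mob_ptp _ _ _ _
      (V := (a * V.1 + b * V.2, c * V.1 + e * V.2)) (Pool.Agent.Q68.GT.img_ne hdet hV),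
      Pool.Agent.Q68.GT.mob_ptp _ _ _ _ hV]
    congr 1
    refine Prod.ext ?_ ?_
    · show ψ a' * (a * V.1 + b * V.2) + ψ b' * (c * V.1 + e * V.2) = α * V.1 + β * V.2
      rw [hα, hβ]
      ring
    · show ψ c' * (a * V.1 + b * V.2) + ψ e' * (c * V.1 + e * V.2) = γ * V.1 + δ * V.2
      rw [hγ, hδ]
      ring
  have hdet2 : α * δ - β * γ ≠ 0 := by
    have : α * δ - β * γ = (ψ a' * ψ e' - ψ b' * ψ c') * (a * e - b * c) := by
      rw [hα, hβ, hγ, hδ]
      ring
    rw [this]
    exact mul_ne_zero hdetψ hdet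
  obtain ⟨hβ0, hγ0, hαδ⟩ := mob_id hdet2 (by
      rw [← hNM, ← hy0, hNmap, g0, Option.map_none]) (by
      rw [← hNM, ← hy1, hNmap, g1, Option.map_some, map_zero]) (by
      rw [← hNM, ← hy2, hNmap, g2, Option.map_some, map_one])
  have hid : ∀ y, N (M y) = y := by
    intro y
    have hα0 : α ≠ 0 := by
      intro h0
      apply hdet2
      rw [h0, hβ0]
      ring
    obtain ⟨V, hV, rfl⟩ := Pool.Agent.Q68.GT.exists_ptp y
    rw [hNM, Pool.Agent.Q68.GT.mob_ptp _ _ _ _ hV, hβ0, hγ0, ← hαδ, ← Pool.Agent.Q68.GT.ptp_smul hα0 V]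
    congr 1
    refine Prod.ext ?_ ?_
    · show α * V.1 + 0 * V.2 = α * V.1
      ring
    · show 0 * V.1 + α * V.2 = α * V.2
      ring
  -- so the map is defined over `k'`
  set p1 := cp d u w a' b' c' e' a' b' with hp1
  set q1 := cp d u w a' b' c' e' c' e' with hq1
  have hco1 : IsCoprime p1 q1 := cp_coprime hd1 hcouw hmaxuw hdet'
  have hmax1 : max p1.natDegree q1.natDegree = d := cp_max hd1 hcouw hmaxuw hdet'
  have hval : ∀ y, ratP1 (p.map φ) (q.map φ) d y = ratP1 (p1.map ψ) (q1.map ψ) d y := by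
    intro y
    have e1 := hconj y
    have e2 := cp_conj hd1 (p := u.map ψ) (q := w.map ψ) (hcouw.map (mapRingHom ψ)) (by
      rw [natDegree_map, natDegree_map, hmaxuw]) hdetψ (M y)
    rw [hp1, hq1, cp_map, cp_map]
    rw [← hid (ratP1 (p.map φ) (q.map φ) d y)]
    show N (M (ratP1 (p.map φ) (q.map φ) d y)) = _
    have e3 : M (ratP1 (p.map φ) (q.map φ) d y) = ratP1 (u.map ψ) (w.map ψ) d (M y) := by
      rw [hu, hw]
      exact e1
    rw [e3]
    have e4 : N (ratP1 (u.map ψ) (w.map ψ) d (M y)) = _ := e2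
    rw [e4]
    show ratP1 _ _ d (N (M y)) = _
    rw [hid]
  have hne : ∀ {E : Type} [Field E] (f g : E[X]), IsCoprime f g → max f.natDegree g.natDegree = d →
      g ≠ 0 := by
    rintro E _ f g hfg hm rfl
    rw [isCoprime_zero_right] at hfg
    have h0 := natDegree_eq_zero_of_isUnit hfg
    rw [h0, natDegree_zero] at hm
    simp at hm
    omega
  have hcoφ : IsCoprime (p.map φ) (q.map φ) := hco.map (mapRingHom φ)
  have hcoψ : IsCoprime (p1.map ψ) (q1.map ψ) := hco1.map (mapRingHom ψ)
  obtain ⟨t, ht, hpt, hqt⟩ := prop_of_eq (d := d) hcoφ hcoψ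
    (hne _ _ hcoφ (by rw [natDegree_map, natDegree_map, hmax]))
    (hne _ _ hcoψ (by rw [natDegree_map, natDegree_map, hmax1])) hval
  -- the ratios of the coefficients are algebraic over `F`
  have hrat : ∀ r ∈ rats p q, IsAlgebraic F r := by
    rintro r ⟨f, g, hf, hg, i, j, rfl⟩
    have hc : ∀ f : K[X], (f = p ∨ f = q) → ∀ i, ∃ s : k', φ (f.coeff i) = t * ψ s := by
      rintro f (rfl | rfl) i
      · refine ⟨p1.coeff i, ?_⟩
        rw [← coeff_map, hpt, coeff_C_mul, coeff_map]
      · refine ⟨q1.coeff i, ?_⟩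
        rw [← coeff_map, hqt, coeff_C_mul, coeff_map]
    obtain ⟨s, hs⟩ := hc f hf i
    obtain ⟨s', hs'⟩ := hc g hg j
    have h1 : φ (f.coeff i / g.coeff j) = ψ (s / s') := by
      rw [map_div₀, hs, hs', map_div₀, mul_div_mul_left _ _ ht]
    have h2 : IsAlgebraic F (φ (f.coeff i / g.coeff j)) := by
      rw [h1]
      exact mem_algebraicClosure_iff.1 (s / s').2
    exact (isAlgebraic_algebraMap_iff φ.injective).1 h2
  exact hrat

end Pool.Agent.Q103.VR
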