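import Pool.Agent.Q103.VR.Tens

/-!
# The moduli fibration: main theorems
-/

set_option autoImplicit false

namespace Pool.Agent.Q103.VR

open Finset Polynomial FF
open Pool.Agent.W602.GT
open Pool.Agent.Q41.SU
open Pool.Agent.Q41.GT
open Pool.Agent.W277.UH (ratP1)
open Pool.Agent.Q103.EC

/-- The field `E` between `k` and the function field `K` of the variety `X` is the function field of the
base `Y` of the **moduli fibration** `X ⇢ Y` of the map `f = p / q` of degree `d` over `K`. -/
structure ModuliFibration {k K : Type} [Field k] [Field K] [Algebra k K] (d : ℕ) (p q : K[X])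
    (E : IntermediateField k K) : Prop where
  /-- the general fibres of `X ⇢ Y` are irreducible -/
  closed : ∀ y : K, IsAlgebraic E y → y ∈ E
  /-- `f` is defined over `E` up to conjugation -/
  defined : DefinedOver d p q E
  /-- `f` is even conjugate, by a Moebius map over `K`, to a map `p' / q'` over `E`, and its
  preperiodic points in `P^1(K)` correspond to points of `P^1(E)` -/
  descends : ∃ (p' q' : E[X]) (a b c e : K), a * e - b * c ≠ 0 ∧ IsCoprime p' q' ∧
    max p'.natDegree q'.natDegree = d ∧
    (∀ y, ratP1 (C a * X + C b) (C c * X + C e) 1 (ratP1 p q d y) =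
      ratP1 (p'.map (algebraMap E K)) (q'.map (algebraMap E K)) d
        (ratP1 (C a * X + C b) (C c * X + C e) 1 y)) ∧
    ∀ z ∈ prePer d p q, ∃ y : Option E, Option.map (algebraMap E K) y =
      ratP1 (C a * X + C b) (C c * X + C e) 1 z
  /-- `E` is algebraic over every field over which `f` is defined up to conjugation -/
  least : ∀ F : IntermediateField k K, DefinedOver d p q F → ∀ y ∈ E, IsAlgebraic F y

/-- `v` is the variation of the map `p / q` of degree `d` over `K`: the least transcendence degree over
`k` of a field over which it is defined up to conjugation. -/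
def IsVariation (k : Type) {K : Type} [Field k] [Field K] [Algebra k K] (d : ℕ) (p q : K[X])
    (v : ℕ) : Prop :=
  IsLeast {u : ℕ | ∃ F : IntermediateField k K, Algebra.trdeg k F = u ∧ DefinedOver d p q F} v

/-- the dimension of the base of the moduli fibration is the variation -/
lemma ModuliFibration.variation {k K : Type} [Field k] [Field K] [Algebra k K] {d : ℕ}
    {p q : K[X]} {E : IntermediateField k K} (h : ModuliFibration d p q E) {v : ℕ}
    (hv : Algebra.trdeg k E = v) : IsVariation k d p q v := by
  refine ⟨⟨E, hv, h.defined⟩, ?_⟩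
  rintro u ⟨F, hF, hdef⟩
  have hle : E ≤ (algebraicClosure F K).restrictScalars k := fun y hy =>
    mem_algebraicClosure_iff.2 (h.least F hdef y hy)
  have h1 : Algebra.trdeg k E ≤ Algebra.trdeg k (algebraicClosure F K) :=
    trdeg_le_of_injective (IntermediateField.inclusion hle) (IntermediateField.inclusion hle).injective
  have i1 : FaithfulSMul k F := (faithfulSMul_iff_algebraMap_injective k F).2 (algebraMap k F).injective
  have i2 : FaithfulSMul F (algebraicClosure F K) :=
    (faithfulSMul_iff_algebraMap_injective F _).2 (algebraMap F (algebraicClosure F K)).injective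
  have h2 : Algebra.trdeg k F + Algebra.trdeg F (algebraicClosure F K) =
      Algebra.trdeg k (algebraicClosure F K) := trdeg_add_eq k F (A := algebraicClosure F K)
  have h3 : Algebra.trdeg F (algebraicClosure F K) = 0 := by
    have : Algebra.IsAlgebraic F (algebraicClosure F K) := inferInstance
    exact trdeg_eq_zero
  rw [← h2, h3, add_zero, hv, hF] at h1
  exact_mod_cast h1

/-- an isotrivial map is defined over the constants -/
lemma definedOver_bot {k K : Type} [Field k] [Field K] [Algebra k K] {d : ℕ} {p q : K[X]} :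
    DefinedOver d p q (⊥ : IntermediateField k K) ↔ Isotrivial k d p q := by
  have hb : ∀ x : AlgebraicClosure K, IsAlgebraic (⊥ : IntermediateField k K) x ↔ IsAlgebraic k x := by
    intro x
    constructor
    · intro h
      have : Algebra.IsAlgebraic k (⊥ : IntermediateField k K) := inferInstance
      exact h.restrictScalars k
    · intro h
      exact h.extendScalars (algebraMap k (⊥ : IntermediateField k K)).injective
  constructor
  · rintro ⟨p', q', a, b, c, e, h1, h2, h3, h4, h5⟩
    exact ⟨p', q', a, b, c, e, h1, h2, h3, fun i => ⟨(hb _).1 (h4 i).1, (hb _).1 (h4 i).2⟩, h5⟩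
  · rintro ⟨p', q', a, b, c, e, h1, h2, h3, h4, h5⟩
    exact ⟨p', q', a, b, c, e, h1, h2, h3, fun i => ⟨(hb _).2 (h4 i).1, (hb _).2 (h4 i).2⟩, h5⟩

/-- the moduli fibration exists -/
theorem exists_moduli {k K : Type} [Field k] [CharZero k] [Field K] [Algebra k K] {d B : ℕ}
    (hd : 2 ≤ d) (hB : 3 ≤ B) {p q : K[X]} (hco : IsCoprime p q)
    (hmax : max p.natDegree q.natDegree = d) (hmany : (B : ℕ∞) ≤ (prePer d p q).encard) :
    ∃ E : IntermediateField k K, ModuliFibration d p q E ∧
      ∃ p' q' : E[X], ManyPrep k d B p' q' := by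
  obtain ⟨E, p', q', a, b, c, e, hcl, hdet, hconj, hpts, hmp, hmin⟩ :=
    moduli (k := k) hd hB hco hmax hmany
  refine ⟨E, ⟨hcl, ?_, ?_, hmin⟩, p', q', hmp⟩
  · set φ := algebraMap K (AlgebraicClosure K) with hφ
    refine ⟨(p'.map (algebraMap E K)).map φ, (q'.map (algebraMap E K)).map φ, φ a, φ b, φ c, φ e,
      ?_, ?_, ?_, fun i => ?_, hconj _ φ⟩
    · rw [← map_mul, ← map_mul, ← map_sub]
      exact (_root_.map_ne_zero φ).2 hdet
    · exact (hmp.coprime.map (mapRingHom (algebraMap E K))).map (mapRingHom φ)
    · rw [natDegree_map, natDegree_map, natDegree_map, natDegree_map, hmp.deg]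
    · rw [coeff_map, coeff_map, coeff_map, coeff_map]
      exact ⟨isAlgebraic_algebraMap (A := AlgebraicClosure K) (p'.coeff i),
        isAlgebraic_algebraMap (A := AlgebraicClosure K) (q'.coeff i)⟩
  · refine ⟨p', q', a, b, c, e, hdet, hmp.coprime, hmp.deg, fun y => ?_, fun z hz => ?_⟩
    · have h1 := hconj K (RingHom.id K) y
      simp only [RingHom.id_apply, Polynomial.map_id] at h1
      exact h1
    · obtain ⟨y, -, hy⟩ := hpts z hz
      exact ⟨y, hy⟩

/-- the dimension of the base -/
lemma exists_dim {k K : Type} [Field k] [Field K] [Algebra k K] (E : IntermediateField k K) {w : ℕ}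
    (hw : Algebra.trdeg k K = w) : ∃ v : ℕ, v ≤ w ∧ Algebra.trdeg k E = v := by
  have h1 : Algebra.trdeg k E ≤ Algebra.trdeg k K :=
    trdeg_le_of_injective E.val E.val.injective
  rw [hw] at h1
  obtain ⟨v, hv⟩ := Cardinal.lt_aleph0.1 (h1.trans_lt (Cardinal.natCast_lt_aleph0))
  refine ⟨v, ?_, hv⟩
  rw [hv] at h1
  exact_mod_cast h1

/-- **Main theorem.** The base of the moduli fibration of a map with many preperiodic points is a point
or a variety of general type. -/
theorem fibration (d : ℕ) (hd : 2 ≤ d) : ∃ B : ℕ, ∀ (k K : Type) [Field k] [CharZero k] [Field K]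
    [Algebra k K] (p q : K[X]), IsCoprime p q → max p.natDegree q.natDegree = d →
    (B : ℕ∞) ≤ (prePer d p q).encard → ∀ w : ℕ, Algebra.trdeg k K = w →
    ∃ (E : IntermediateField k K) (v : ℕ), ModuliFibration d p q E ∧ v ≤ w ∧
      Algebra.trdeg k E = v ∧ IsVariation k d p q v ∧ (1 ≤ v → GeneralType k E v) ∧
      ∃ p' q' : E[X], ManyPrep k d B p' q' := by
  obtain ⟨B, hB⟩ := general d hd
  refine ⟨max B 3, ?_⟩
  intro k K _ _ _ _ p q hco hmax hmany w hw
  obtain ⟨E, hE, p', q', hmp⟩ := exists_moduli (k := k) hd (le_max_right B 3) hco hmax hmany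
  obtain ⟨v, hv, htr⟩ := exists_dim E hw
  refine ⟨E, v, hE, hv, htr, hE.variation htr, fun h1 => ?_, p', q', hmp⟩
  exact hB k E p' q' ⟨hmp.coprime, hmp.deg, hmp.maxVar,
    le_trans (by exact_mod_cast le_max_left B 3) hmp.many⟩ v h1 htr

/-- the map is isotrivial if and only if the base is a point -/
lemma ModuliFibration.isotrivial {k K : Type} [Field k] [Field K] [Algebra k K] {d : ℕ}
    {p q : K[X]} {E : IntermediateField k K} (h : ModuliFibration d p q E) :
    Isotrivial k d p q ↔ ∀ y ∈ E, IsAlgebraic k y := by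
  constructor
  · intro hi y hy
    have h1 := h.least ⊥ (definedOver_bot.2 hi) y hy
    have : Algebra.IsAlgebraic k (⊥ : IntermediateField k K) := inferInstance
    exact h1.restrictScalars k
  · intro hE
    obtain ⟨p', q', a, b, c, e, h1, h2, h3, h4, h5⟩ := h.defined
    have : Algebra.IsAlgebraic k E := ⟨fun y => (isAlgebraic_algebraMap_iff
      (algebraMap E K).injective).1 (hE y y.2)⟩
    exact ⟨p', q', a, b, c, e, h1, h2, h3, fun i => ⟨(h4 i).1.restrictScalars k,
      (h4 i).2.restrictScalars k⟩, h5⟩

/-- **Symmetric differentials**: the holomorphic symmetric differentials of `X` define the tangent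
spaces of the fibres of the moduli fibration, or smaller spaces. -/
theorem kernel (d : ℕ) (hd : 2 ≤ d) : ∃ B : ℕ, ∀ (k K : Type) [Field k] [CharZero k] [Field K]
    [Algebra k K] (p q : K[X]), IsCoprime p q → max p.natDegree q.natDegree = d →
    (B : ℕ∞) ≤ (prePer d p q).encard → ∀ w : ℕ, Algebra.trdeg k K = w →
    ∃ E : IntermediateField k K, ModuliFibration d p q E ∧
    ∀ D : Derivation k K K, (∃ y ∈ E, D y ≠ 0) →
    ∃ m : ℕ, 1 ≤ m ∧ ∃ ω : MultilinearMap K (fun _ : Fin m => Derivation k K K) K,
      (∀ (σ : Equiv.Perm (Fin m)) (D' : Fin m → Derivation k K K), ω (fun i => D' (σ i)) = ω D') ∧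
      (∀ (v : Place k K) (D' : Fin m → Derivation k K K), (∀ j, DerReg v (D' j)) →
        v.Reg (ω D')) ∧ ω (fun _ => D) ≠ 0 := by
  obtain ⟨B, hB⟩ := sym_ne d hd
  refine ⟨max B (3 * d + 7), ?_⟩
  intro k K _ _ _ _ p q hco hmax hmany w hw
  obtain ⟨E, hE, p', q', hmp⟩ := exists_moduli (k := k) hd
    (le_trans (by omega) (le_max_right B (3 * d + 7))) hco hmax hmany
  obtain ⟨p2, q2, P2, hp2, hq2, hpq2, hst, hc, halg2⟩ := exists_stab hd (le_max_right _ _) hmp
  exact ⟨E, hE, fun D hD => hB k K w hw E p2 q2 P2 hp2 hq2 hpq2 hst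
    (le_trans (le_max_left _ _) hc) halg2 D hD⟩

/-- an element on which all derivations vanish is algebraic over the constants -/
theorem alg_of_der_zero {k K : Type} [Field k] [CharZero k] [Field K] [Algebra k K] {y : K}
    (h : ∀ D : Derivation k K K, D y = 0) : IsAlgebraic k y := by
  classical
  by_contra hy
  have h1 : AlgebraicIndepOn k id ({y} : Set K) := by
    have h2 : AlgebraicIndependent k (fun i : ({y} : Set K) => id (i : K)) :=
      (algebraicIndependent_singleton_iff (⟨y, rfl⟩ : ({y} : Set K))).2 hy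
    exact h2
  obtain ⟨T, hT, hb⟩ := exists_isTranscendenceBasis_superset h1
  have hyT : y ∈ T := hT rfl
  obtain ⟨D, hD⟩ := exists_der (fun i : T => (i : K)) hb fun i => if i = ⟨y, hyT⟩ then 1 else 0
  have h3 := hD ⟨y, hyT⟩
  rw [if_pos rfl] at h3
  have h4 : D y = 1 := h3
  rw [h D] at h4
  exact zero_ne_one h4

end Pool.Agent.Q103.VR
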