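import Pool.Agent.Q103.VR.Def

/-!
# The moduli fibration of a map with many preperiodic points

`K` is the function field of a variety `X` over `k`, `p / q` a rational map over `K` of degree `d` with
many preperiodic points in `P^1(K)`. There is a field `E` between `k` and `K`, algebraically closed in `K`
(the function field of a variety `Y`, with a dominant rational map `X ⇢ Y` with irreducible general
fibres), such that the map is conjugate over `K` to a map over `E`, and `Y` is a point or a variety of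
general type whose dimension is the variation of the map.
-/

set_option autoImplicit false

namespace Pool.Agent.Q103.VR

open Finset Polynomial
open Pool.Agent.W602.GT (GeneralType)
open Pool.Agent.Q41.SU
open Pool.Agent.Q41.GT
open Pool.Agent.W277.UH (ratP1 ratP1_some ratP1_some0 ratP1_none ratP1_none0)
open Pool.Agent.Q68.GT (cp three cp_conj cp_coprime cp_max mob_inv mob_ptp exists_ptp img_ne)
open Pool.Agent.Q103.EC

lemma range_semi {α β : Type} {f : α → α} {g : β → β} {M : α → β} (h : Function.Semiconj M f g)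
    (z : α) : (Set.range fun m : ℕ => g^[m] (M z)) = M '' (Set.range fun m : ℕ => f^[m] z) := by
  ext y
  constructor
  · rintro ⟨m, rfl⟩
    exact ⟨_, ⟨m, rfl⟩, (h.iterate_right m).eq z⟩
  · rintro ⟨_, ⟨m, rfl⟩, rfl⟩
    exact ⟨m, ((h.iterate_right m).eq z).symm⟩

lemma fin_semi {α β : Type} {f : α → α} {g : β → β} {M : α → β} (h : Function.Semiconj M f g)
    (hM : Function.Injective M) (z : α) :
    (Set.range fun m : ℕ => g^[m] (M z)).Finite ↔ (Set.range fun m : ℕ => f^[m] z).Finite := by
  rw [range_semi h]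
  exact Set.finite_image_iff hM.injOn

/-- composition of Moebius maps -/
lemma mob_comp {K : Type} [Field K] (a' b' c' e' : K) {a b c e : K} (hdet : a * e - b * c ≠ 0)
    (y : Option K) : ratP1 (C a' * X + C b') (C c' * X + C e') 1
      (ratP1 (C a * X + C b) (C c * X + C e) 1 y) =
    ratP1 (C (a' * a + b' * c) * X + C (a' * b + b' * e))
      (C (c' * a + e' * c) * X + C (c' * b + e' * e)) 1 y := by
  obtain ⟨V, hV, rfl⟩ := exists_ptp y
  rw [mob_ptp _ _ _ _ hV, mob_ptp _ _ _ _ (V := (a * V.1 + b * V.2, c * V.1 + e * V.2))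
    (img_ne hdet hV), mob_ptp _ _ _ _ hV]
  congr 1
  refine Prod.ext ?_ ?_
  · show a' * (a * V.1 + b * V.2) + b' * (c * V.1 + e * V.2) =
      (a' * a + b' * c) * V.1 + (a' * b + b' * e) * V.2
    ring
  · show c' * (a * V.1 + b * V.2) + e' * (c * V.1 + e * V.2) =
      (c' * a + e' * c) * V.1 + (c' * b + e' * e) * V.2
    ring

/-- the fields over which a map is defined do not change under a conjugation over `K` -/
lemma definedOver_conj {k K : Type} [Field k] [Field K] [Algebra k K] {d : ℕ}
    {p q p1 q1 : K[X]} {a b c e : K} (hdet : a * e - b * c ≠ 0)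
    (hconj : ∀ (E : Type) [Field E] (φ : K →+* E) (y : Option E),
        ratP1 (C (φ a) * X + C (φ b)) (C (φ c) * X + C (φ e)) 1
          (ratP1 (p.map φ) (q.map φ) d y) =
        ratP1 (p1.map φ) (q1.map φ) d
          (ratP1 (C (φ a) * X + C (φ b)) (C (φ c) * X + C (φ e)) 1 y))
    {F : IntermediateField k K} (h : DefinedOver d p q F) : DefinedOver d p1 q1 F := by
  obtain ⟨p', q', a', b', c', e', hdet', hco', hmax', hF, hc'⟩ := h
  set φ := algebraMap K (AlgebraicClosure K) with hφ
  have hdetφ : φ a * φ e - φ b * φ c ≠ 0 := by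
    rw [← map_mul, ← map_mul, ← map_sub]
    exact (map_ne_zero φ).2 hdet
  have hdetI : φ e * φ a - (-φ b) * (-φ c) ≠ 0 := by
    intro h0
    apply hdetφ
    rw [← h0]
    ring
  refine ⟨p', q', a' * φ e + b' * (-φ c), a' * (-φ b) + b' * φ a, c' * φ e + e' * (-φ c),
    c' * (-φ b) + e' * φ a, ?_, hco', hmax', hF, ?_⟩
  · have h1 : (a' * φ e + b' * (-φ c)) * (c' * (-φ b) + e' * φ a) -
        (a' * (-φ b) + b' * φ a) * (c' * φ e + e' * (-φ c)) =
        (a' * e' - b' * c') * (φ a * φ e - φ b * φ c) := by ring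
    rw [h1]
    exact mul_ne_zero hdet' hdetφ
  · intro y
    rw [← mob_comp _ _ _ _ hdetI, ← mob_comp _ _ _ _ hdetI]
    obtain ⟨z, rfl⟩ : ∃ z, ratP1 (C (φ a) * X + C (φ b)) (C (φ c) * X + C (φ e)) 1 z = y := by
      refine ⟨ratP1 (C (φ e) * X + C (-φ b)) (C (-φ c) * X + C (φ a)) 1 y, ?_⟩
      have h2 := mob_inv hdetI y
      rw [neg_neg, neg_neg] at h2
      exact h2
    rw [← hconj _ φ z, mob_inv hdetφ, mob_inv hdetφ]
    exact hc' z

/-- **The moduli fibration** of a map with at least three preperiodic points. -/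
theorem moduli {k L : Type} [Field k] [CharZero k] [Field L] [Algebra k L] {d B : ℕ} (hd : 2 ≤ d)
    (hB : 3 ≤ B) {p q : L[X]} (hco : IsCoprime p q) (hmax : max p.natDegree q.natDegree = d)
    (hmany : (B : ℕ∞) ≤ (prePer d p q).encard) :
    ∃ (E : IntermediateField k L) (p' q' : E[X]) (a b c e : L),
      (∀ y : L, IsAlgebraic E y → y ∈ E) ∧ a * e - b * c ≠ 0 ∧
      (∀ (Ω : Type) [Field Ω] (φ : L →+* Ω) (y : Option Ω),
        ratP1 (C (φ a) * X + C (φ b)) (C (φ c) * X + C (φ e)) 1
          (ratP1 (p.map φ) (q.map φ) d y) =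
        ratP1 ((p'.map (algebraMap E L)).map φ) ((q'.map (algebraMap E L)).map φ) d
          (ratP1 (C (φ a) * X + C (φ b)) (C (φ c) * X + C (φ e)) 1 y)) ∧
      (∀ z ∈ prePer d p q, ∃ y ∈ prePer d p' q', Option.map (algebraMap E L) y =
        ratP1 (C a * X + C b) (C c * X + C e) 1 z) ∧
      ManyPrep k d B p' q' ∧
      ∀ F : IntermediateField k L, DefinedOver d p q F → ∀ y ∈ E, IsAlgebraic F y := by
  classical
  have : CharZero L := charZero_of_injective_algebraMap (algebraMap k L).injective
  obtain ⟨a, b, c, e, p1, q1, S, hdet, hco1, hmax1, hone, hS, s0, s1, s2, hcard, hconj⟩ :=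
    exists_norm hd hB hco hmax hmany
  set F₀ := IntermediateField.adjoin k (rats p1 q1) with hF₀
  set E : IntermediateField k L := (algebraicClosure F₀ L).restrictScalars k with hE
  have hmemE : ∀ y : L, y ∈ E ↔ IsAlgebraic F₀ y := fun y => mem_algebraicClosure_iff
  have hle : F₀ ≤ E := fun y hy => (hmemE y).2 (isAlgebraic_algebraMap (⟨y, hy⟩ : F₀))
  have hclosed : ∀ y : L, IsAlgebraic E y → y ∈ E := by
    intro y hy
    have h1 : IsAlgebraic (algebraicClosure F₀ L) y := hy
    have : Algebra.IsAlgebraic F₀ (algebraicClosure F₀ L) := inferInstance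
    exact (hmemE y).2 (h1.restrictScalars F₀)
  set φ := algebraMap E L with hφ
  -- the coefficients are in `F₀`
  have hcoef : ∀ g : L[X], (g = p1 ∨ g = q1) → ∀ i, g.coeff i ∈ F₀ := by
    intro g hg i
    obtain ⟨j, hj⟩ := hone
    rcases hj with hj | hj
    · refine IntermediateField.subset_adjoin _ _ ⟨g, p1, hg, Or.inl rfl, i, j, ?_⟩
      rw [hj, div_one]
    · refine IntermediateField.subset_adjoin _ _ ⟨g, q1, hg, Or.inr rfl, i, j, ?_⟩
      rw [hj, div_one]
  have hlift0 : ∀ g : L[X], (g = p1 ∨ g = q1) → ∃ g' : F₀[X], g'.map (algebraMap F₀ L) = g := by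
    intro g hg
    have h1 : g ∈ Polynomial.lifts (algebraMap F₀ L) := by
      rw [Polynomial.lifts_iff_coeff_lifts]
      intro i
      exact ⟨⟨g.coeff i, hcoef g hg i⟩, rfl⟩
    exact h1
  have hlift : ∀ g : L[X], (g = p1 ∨ g = q1) → ∃ g' : E[X], g'.map φ = g := by
    intro g hg
    have h1 : g ∈ Polynomial.lifts φ := by
      rw [Polynomial.lifts_iff_coeff_lifts]
      intro i
      exact ⟨⟨g.coeff i, hle (hcoef g hg i)⟩, rfl⟩
    exact h1
  obtain ⟨u, hu⟩ := hlift0 p1 (Or.inl rfl)
  obtain ⟨v, hv⟩ := hlift0 q1 (Or.inr rfl)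
  obtain ⟨p', hp'⟩ := hlift p1 (Or.inl rfl)
  obtain ⟨q', hq'⟩ := hlift q1 (Or.inr rfl)
  have hcouv : IsCoprime u v := by
    rw [← Polynomial.isCoprime_map (algebraMap F₀ L), hu, hv]
    exact hco1
  have hmaxuv : max u.natDegree v.natDegree = d := by
    rw [← natDegree_map (algebraMap F₀ L), ← natDegree_map (p := v) (algebraMap F₀ L), hu, hv, hmax1]
  have hco' : IsCoprime p' q' := by
    rw [← Polynomial.isCoprime_map φ, hp', hq']
    exact hco1
  have hmax' : max p'.natDegree q'.natDegree = d := by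
    rw [← natDegree_map φ, ← natDegree_map (p := q') φ, hp', hq', hmax1]
  set ψ : Option E → Option L := Option.map φ with hψ
  have hψinj : Function.Injective ψ := Option.map_injective φ.injective
  have hψs : Function.Semiconj ψ (ratP1 p' q' d) (ratP1 p1 q1 d) := by
    intro y
    show Option.map φ _ = _
    rw [ratP1_map, hp', hq']
  -- all preperiodic points are defined over `E`
  have hpts : ∀ z ∈ prePer d p1 q1, ∃ y ∈ prePer d p' q', ψ y = z := by
    intro z hz
    have h1 : ∃ y, ψ y = z := by
      cases z with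
      | none => exact ⟨none, rfl⟩
      | some t =>
        have h2 : IsAlgebraic F₀ t := alg_of_prePer hd hcouv hmaxuv (by rw [hu, hv]; exact hz)
        exact ⟨some ⟨t, (hmemE t).2 h2⟩, rfl⟩
    obtain ⟨y, rfl⟩ := h1
    exact ⟨y, (fin_semi hψs hψinj y).1 hz, rfl⟩
  set M : Option L → Option L := ratP1 (C a * X + C b) (C c * X + C e) 1 with hM
  have hMinj : Function.Injective M := Function.LeftInverse.injective (mob_inv hdet)
  have hMs : Function.Semiconj M (ratP1 p q d) (ratP1 p1 q1 d) := by
    intro y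
    have h1 := hconj L (RingHom.id L) y
    simp only [RingHom.id_apply, Polynomial.map_id] at h1
    exact h1
  have hMpts : ∀ z ∈ prePer d p q, M z ∈ prePer d p1 q1 := fun z hz =>
    (fin_semi hMs hMinj z).2 hz
  have hnum : (prePer d p q).encard ≤ (prePer d p' q').encard := by
    have h1 : (prePer d p q).encard ≤ (prePer d p1 q1).encard := by
      rw [← hMinj.encard_image]
      apply Set.encard_le_encard
      rintro _ ⟨z, hz, rfl⟩
      exact hMpts z hz
    refine h1.trans ?_
    rw [← hψinj.encard_image (prePer d p' q')]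
    apply Set.encard_le_encard
    intro z hz
    obtain ⟨y, hy, rfl⟩ := hpts z hz
    exact ⟨y, hy, rfl⟩
  -- the normal form
  have hSper : ∀ z ∈ S, z ∈ prePer d p1 q1 := by
    intro z hz
    refine S.finite_toSet.subset ?_
    rintro _ ⟨m, rfl⟩
    induction m with
    | zero => exact hz
    | succ m ih =>
      simp only [Function.iterate_succ_apply']
      exact hS _ ih
  have hnorm1 : ∀ z : Option L, z = none ∨ z = some 0 ∨ z = some 1 → z ∈ prePer d p1 q1 := by
    rintro z (rfl | rfl | rfl)
    · exact hSper _ s0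
    · exact hSper _ s1
    · exact hSper _ s2
  have hnorm : ∀ z : Option E, z = none ∨ z = some 0 ∨ z = some 1 → z ∈ prePer d p' q' := by
    intro z hz
    refine (fin_semi hψs hψinj z).1 (hnorm1 (ψ z) ?_)
    rcases hz with rfl | rfl | rfl
    · exact Or.inl rfl
    · right
      left
      show some (φ 0) = some 0
      rw [map_zero]
    · right
      right
      show some (φ 1) = some 1
      rw [map_one]
  -- `E` is algebraic over the field generated by the coefficients
  have halg : Algebra.IsAlgebraic (IntermediateField.adjoin k (rats p' q')) E := by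
    set G := IntermediateField.adjoin k (rats p' q') with hG
    have hle2 : F₀ ≤ G.map E.val := by
      rw [hF₀, IntermediateField.adjoin_le_iff]
      rintro r ⟨f, g, hf, hg, i, j, rfl⟩
      have hx : ∀ f : L[X], (f = p1 ∨ f = q1) → ∃ f' : E[X], (f' = p' ∨ f' = q') ∧ f'.map φ = f := by
        rintro f (rfl | rfl)
        · exact ⟨p', Or.inl rfl, hp'⟩
        · exact ⟨q', Or.inr rfl, hq'⟩
      obtain ⟨f', hf', rfl⟩ := hx f hf
      obtain ⟨g', hg', rfl⟩ := hx g hg
      refine ⟨f'.coeff i / g'.coeff j, IntermediateField.subset_adjoin _ _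
        ⟨f', g', hf', hg', i, j, rfl⟩, ?_⟩
      rw [coeff_map, coeff_map]
      exact map_div₀ φ _ _
    refine ⟨fun y => ?_⟩
    have h1 : IsAlgebraic F₀ (y : L) := (hmemE _).1 y.2
    have h2 : IsAlgebraic (G.map E.val) (y : L) := Pool.Agent.Q53.EC.alg_mono hle2 h1
    let f : G →+* (G.map E.val) := (IntermediateField.equivMap G E.val : G →+* (G.map E.val))
    exact h2.of_ringHom_of_comp_eq f φ (EquivLike.surjective (IntermediateField.equivMap G E.val))
      φ.injective rfl
  have hmp : ManyPrep k d B p' q' :=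
    ⟨hco', hmax', maxVar_of_normal hd hco' hmax' hnorm halg, hmany.trans hnum⟩
  refine ⟨E, p', q', a, b, c, e, hclosed, hdet, ?_, ?_, hmp, ?_⟩
  · intro Ω _ φ' y
    rw [hp', hq']
    exact hconj Ω φ' y
  · intro z hz
    exact hpts _ (hMpts z hz)
  · intro F hF y hy
    have h1 : ∀ r ∈ rats p1 q1, IsAlgebraic F r :=
      rats_alg_of_normal hd hco1 hmax1 hnorm1 (definedOver_conj hdet hconj hF)
    have hle3 : F₀ ≤ (algebraicClosure F L).restrictScalars k := by
      rw [hF₀, IntermediateField.adjoin_le_iff]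
      intro r hr
      exact mem_algebraicClosure_iff.2 (h1 r hr)
    have h2 : IsAlgebraic ((algebraicClosure F L).restrictScalars k) y :=
      Pool.Agent.Q53.EC.alg_mono hle3 ((hmemE y).1 hy)
    have h3 : IsAlgebraic (algebraicClosure F L) y := h2
    have : Algebra.IsAlgebraic F (algebraicClosure F L) := inferInstance
    exact h3.restrictScalars F

/-- maps with many preperiodic points and generically finite moduli map -/
theorem general (d : ℕ) (hd : 2 ≤ d) : ∃ B : ℕ, ∀ (k K : Type) [Field k] [CharZero k] [Field K]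
    [Algebra k K] (p q : K[X]), ManyPrep k d B p q → ∀ w : ℕ, 1 ≤ w → Algebra.trdeg k K = w →
    GeneralType k K w := by
  obtain ⟨B1, hB1⟩ := a_gt d hd
  refine ⟨max B1 (3 * d + 7), ?_⟩
  intro k K _ _ _ _ p q h w hw htr
  have : CharZero K := charZero_of_injective_algebraMap (algebraMap k K).injective
  obtain ⟨p2, q2, P2, hp2, hq2, hpq2, hst, hc, halg2⟩ := exists_stab hd (le_max_right _ _) h
  exact hB1 k K w hw htr p2 q2 hp2 hq2 hpq2 P2 hst (le_trans (le_max_left _ _) hc) halg2

end Pool.Agent.Q103.VR
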