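import Mathlib

/-!
# Polarisation
-/

set_option autoImplicit false

namespace Pool.Agent.Q103.VR

open Finset

/-- **Polarisation.** -/
theorem polar {L V : Type} [Field L] [AddCommGroup V] [Module L V] {m : ℕ}
    (A₀ : MultilinearMap L (fun _ : Fin m => V) L) :
    ∃ A : MultilinearMap L (fun _ : Fin m => V) L,
      (∀ D : Fin m → V, A D = ∑ T ∈ (univ : Finset (Fin m)).powerset,
        (-1 : L) ^ T.card * A₀ (fun _ => ∑ i ∈ Tᶜ, D i)) ∧
      (∀ (σ : Equiv.Perm (Fin m)) (D : Fin m → V), A (fun i => D (σ i)) = A D) ∧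
      ∀ v : V, A (fun _ => v) = (m.factorial : L) * A₀ (fun _ => v) := by
  classical
  refine ⟨∑ σ : Equiv.Perm (Fin m), A₀.domDomCongr σ, fun D => ?_, fun σ D => ?_, fun v => ?_⟩
  · rw [_root_.sum_apply]
    have h1 : ∀ T : Finset (Fin m), A₀ (fun _ => ∑ i ∈ Tᶜ, D i) =
        ∑ r : Fin m → Fin m, if (∀ i, r i ∉ T) then A₀ (fun i => D (r i)) else 0 := by
      intro T
      rw [MultilinearMap.map_sum_finset A₀ (fun _ i => D i) (fun _ => Tᶜ), ← Finset.sum_filter]
      refine Finset.sum_congr ?_ fun _ _ => rfl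
      ext r
      simp [Fintype.mem_piFinset]
    have h2 : ∑ T ∈ (univ : Finset (Fin m)).powerset,
        (-1 : L) ^ T.card * A₀ (fun _ => ∑ i ∈ Tᶜ, D i) =
        ∑ r : Fin m → Fin m, A₀ (fun i => D (r i)) *
          ∑ T ∈ ((univ.image r)ᶜ : Finset (Fin m)).powerset, (-1 : L) ^ T.card := by
      rw [Finset.sum_congr rfl fun T _ => by rw [h1 T]]
      simp_rw [Finset.mul_sum]
      rw [Finset.sum_comm]
      refine Finset.sum_congr rfl fun r _ => ?_
      have h3 : ((univ.image r)ᶜ : Finset (Fin m)).powerset =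
          (univ : Finset (Fin m)).powerset.filter fun T => ∀ i, r i ∉ T := by
        ext T
        simp only [mem_powerset, mem_filter, subset_univ, true_and]
        constructor
        · intro h i hi
          have := h hi
          rw [mem_compl] at this
          exact this (mem_image_of_mem r (mem_univ i))
        · intro h x hx
          rw [mem_compl, mem_image]
          rintro ⟨i, -, rfl⟩
          exact h i hx
      rw [h3, Finset.sum_filter]
      refine Finset.sum_congr rfl fun T _ => ?_
      by_cases h : ∀ i, r i ∉ T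
      · rw [if_pos h, if_pos h, mul_comm]
      · rw [if_neg h, if_neg h, mul_zero]
    rw [h2]
    have h4 : ∀ S : Finset (Fin m), ∑ T ∈ S.powerset, (-1 : L) ^ T.card = if S = ∅ then 1 else 0 := by
      intro S
      have h5 := Finset.sum_powerset_neg_one_pow_card (x := S)
      have h6 := congrArg (fun z : ℤ => (z : L)) h5
      push_cast at h6
      rw [h6]
    have h7 : ∀ r : Fin m → Fin m, A₀ (fun i => D (r i)) *
        ∑ T ∈ ((univ.image r)ᶜ : Finset (Fin m)).powerset, (-1 : L) ^ T.card =
        if Function.Bijective r then A₀ (fun i => D (r i)) else 0 := by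
      intro r
      rw [h4]
      have h8 : ((univ.image r)ᶜ : Finset (Fin m)) = ∅ ↔ Function.Bijective r := by
        rw [← Finite.surjective_iff_bijective, Finset.compl_eq_empty_iff, Finset.eq_univ_iff_forall]
        constructor
        · intro h y
          obtain ⟨i, -, hi⟩ := mem_image.1 (h y)
          exact ⟨i, hi⟩
        · intro h y
          obtain ⟨i, hi⟩ := h y
          exact mem_image.2 ⟨i, mem_univ _, hi⟩
      by_cases hb : Function.Bijective r
      · rw [if_pos hb, if_pos (h8.2 hb), mul_one]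
      · rw [if_neg hb, if_neg fun h => hb (h8.1 h), mul_zero]
    rw [Finset.sum_congr rfl fun r _ => h7 r, ← Finset.sum_filter]
    refine Finset.sum_bij' (fun σ _ => (σ : Fin m → Fin m))
      (fun r h => Equiv.ofBijective r (mem_filter.1 h).2) ?_ ?_ ?_ ?_ ?_
    · intro σ _
      exact mem_filter.2 ⟨mem_univ _, σ.bijective⟩
    · intro r h
      exact mem_univ _
    · intro σ _
      ext i
      rfl
    · intro r h
      rfl
    · intro σ _
      rfl
  · rw [_root_.sum_apply, _root_.sum_apply]
    exact Fintype.sum_equiv (Equiv.mulLeft σ) _ _ fun τ => rfl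
  · rw [_root_.sum_apply]
    have h1 : ∀ σ : Equiv.Perm (Fin m), (A₀.domDomCongr σ) (fun _ => v) = A₀ (fun _ => v) :=
      fun σ => rfl
    rw [Finset.sum_congr rfl fun σ _ => h1 σ, Finset.sum_const, Finset.card_univ, Fintype.card_perm,
      Fintype.card_fin, nsmul_eq_mul]

/-- a monomial as a product of variables -/
lemma exists_seq {w : ℕ} : ∀ (m : ℕ) (γ : Fin w →₀ ℕ), γ.degree = m →
    ∃ s : Fin m → Fin w, ∀ (L : Type) [CommRing L] (f : Fin w → L),
      ∏ i, f (s i) = γ.prod fun j e => f j ^ e := by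
  intro m
  induction m with
  | zero =>
    intro γ h
    have h0 : γ = 0 := by
      rwa [Finsupp.degree_eq_zero_iff] at h
    subst h0
    exact ⟨Fin.elim0, fun L _ f => by simp⟩
  | succ m ih =>
    intro γ h
    obtain ⟨j, hj⟩ : ∃ j, γ j ≠ 0 := by
      by_contra hc
      push Not at hc
      have : γ = 0 := Finsupp.ext hc
      rw [this, map_zero] at h
      omega
    obtain ⟨γ', rfl⟩ : ∃ γ' : Fin w →₀ ℕ, γ = γ' + Finsupp.single j 1 := by
      refine ⟨γ - Finsupp.single j 1, ?_⟩
      rw [tsub_add_cancel_of_le]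
      rw [Finsupp.single_le_iff]
      omega
    obtain ⟨s, hs⟩ := ih γ' (by
      rw [map_add, Finsupp.degree_single] at h
      omega)
    refine ⟨Fin.cons j s, fun L _ f => ?_⟩
    have e1 : ((Finsupp.single j 1 : Fin w →₀ ℕ).prod fun j e => f j ^ e) = f j ^ 1 :=
      Finsupp.prod_single_index (pow_zero _)
    have e2 : ((γ' + Finsupp.single j 1).prod fun j e => f j ^ e) =
        (γ'.prod fun j e => f j ^ e) * ((Finsupp.single j 1 : Fin w →₀ ℕ).prod fun j e => f j ^ e) :=
      Finsupp.prod_add_index' (fun _ => pow_zero _) (fun _ _ _ => pow_add _ _ _)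
    rw [Fin.prod_univ_succ, e2, e1, pow_one, ← hs L f]
    simp only [Fin.cons_zero, Fin.cons_succ]
    rw [mul_comm]

/-- homogeneous polynomials in linear forms are multilinear forms on the diagonal -/
theorem exists_multi {L V : Type} [Field L] [AddCommGroup V] [Module L V] {w m : ℕ}
    (Q : MvPolynomial (Fin w) L) (hQ : Q.IsHomogeneous m) (ℓ : Fin w → V →ₗ[L] L) :
    ∃ A₀ : MultilinearMap L (fun _ : Fin m => V) L, ∀ v,
      A₀ (fun _ => v) = MvPolynomial.eval (fun j => ℓ j v) Q := by
  classical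
  have h : ∀ γ : Q.support, ∃ s : Fin m → Fin w, ∀ (f : Fin w → L),
      ∏ i, f (s i) = (γ : Fin w →₀ ℕ).prod fun j e => f j ^ e := by
    rintro ⟨γ, hγ⟩
    obtain ⟨s, hs⟩ := exists_seq m γ (by
      have h1 := hQ (MvPolynomial.mem_support_iff.1 hγ)
      rw [← h1, Finsupp.degree_eq_weight_one]
      rfl)
    exact ⟨s, fun f => hs L f⟩
  choose s hs using h
  refine ⟨∑ γ : Q.support, Q.coeff (γ : Fin w →₀ ℕ) •
    ((MultilinearMap.mkPiAlgebra L (Fin m) L).compLinearMap fun i => ℓ (s γ i)), fun v => ?_⟩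
  rw [_root_.sum_apply, MvPolynomial.eval_eq, ← Finset.sum_coe_sort Q.support]
  refine Finset.sum_congr rfl fun γ _ => ?_
  rw [_root_.smul_apply, MultilinearMap.compLinearMap_apply,
    MultilinearMap.mkPiAlgebra_apply, hs γ (fun j => ℓ j v), smul_eq_mul]
  rfl

end Pool.Agent.Q103.VR
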