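import Pool.Agent.Q103.VR.Main
import Pool.Agent.Q103.VR.Pol
import Pool.Agent.Q149.GT.H6
import Pool.Agent.Q92.GT.H7

/-!
# Symmetric differentials on varieties which carry a map with many preperiodic points
-/

set_option autoImplicit false

namespace Pool.Agent.Q103.VR

open Finset Polynomial FF
open Pool.Agent.W602.GT
open Pool.Agent.W603.LV (Ge)
open Pool.Agent.Q41.SU
open Pool.Agent.Q41.GT
open Pool.Agent.Q149.GT (im mem_im im_card stab_im sur_im crs_im crs_const der_zero_of_alg
  isAlgClosed_consts)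
open Pool.Agent.W277.UH (ConjConst)
open Pool.Agent.Q92.GT (der_expand map_wro wro_hom)

/-- (H6) over any algebraically closed extension -/
theorem ndw_ext (d a b : ℕ) (φ : II a b → ℕ × ℕ) (hd : 2 ≤ d) (hφ : Cols a b φ) : ∃ N₀ : ℕ,
    ∀ (k K E : Type) [Field k] [CharZero k] [Field K] [Algebra k K] [Field E] [IsAlgClosed E]
    [Algebra K E] [Algebra k E] [IsScalarTower k K E] (p q : K[X]), p.natDegree ≤ d →
    q.natDegree = d → IsCoprime p q → ∀ P : Finset K, Stab p q P → Sur p q P → N₀ ≤ P.card →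
    Algebra.IsAlgebraic (IntermediateField.adjoin k (crs P)) K →
    ∀ D : Derivation k E E, (∃ x : K, D (algebraMap K E x) ≠ 0) →
    ∃ x : II a b → K, Function.Injective x ∧ (∀ l, x l ∈ P) ∧
      wro φ (fun l => algebraMap K E (x l)) (fun l => D (algebraMap K E (x l))) ≠ 0 := by
  classical
  have hcrc := Pool.Agent.Q144.SU.crc.{0}
  obtain ⟨N₀, hN₀⟩ := a_ndr d a b φ hφ
  refine ⟨N₀, ?_⟩
  intro k K E _ _ _ _ _ _ _ _ _ p q hp hq hco P hP hS hcard halg D hD
  have hC := isAlgClosed_consts D
  have hchar : CharZero (consts D) := charZero_of_injective_algebraMap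
    (algebraMap k (consts D)).injective
  let f : K →+* E := algebraMap K E
  have hpE : (p.map f).natDegree ≤ d := by rw [natDegree_map]; exact hp
  have hqE : (q.map f).natDegree = d := by rw [natDegree_map]; exact hq
  have hcoE : IsCoprime (p.map f) (q.map f) := hco.map (mapRingHom f)
  have hnd : NDH (consts D) (overConsts D) d (p.map f) (q.map f) (im f P) := by
    refine ⟨fun x hx => ⟨⟨x, hx⟩, rfl⟩, hd, hpE, hqE, hcoE, stab_im f hP, sur_im f hS, ?_⟩
    intro hconj
    obtain ⟨x, hx⟩ := hD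
    apply hx
    -- the constants of `K`
    let A : IntermediateField k K := (consts D).comap (IsScalarTower.toAlgHom k K E)
    have hA : crs P ⊆ (A : Set K) := by
      intro c hc
      obtain ⟨s, hs⟩ := crs_const hcrc hd hpE hqE hcoE hconj (stab_im f hP) (crs_im f hc)
      change f c ∈ consts D
      rw [← hs]
      exact s.2
    have hle : IntermediateField.adjoin k (crs P) ≤ A := IntermediateField.adjoin_le_iff.2 hA
    let g : IntermediateField.adjoin k (crs P) →+* consts D :=
      { toFun := fun y => ⟨f y, hle y.2⟩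
        map_one' := Subtype.ext (map_one f)
        map_mul' := fun y z => Subtype.ext (map_mul f _ _)
        map_zero' := Subtype.ext (map_zero f)
        map_add' := fun y z => Subtype.ext (map_add f _ _) }
    apply der_zero_of_alg D
    obtain ⟨r, hr0, hr⟩ := halg.isAlgebraic x
    refine ⟨r.map g, (Polynomial.map_ne_zero_iff g.injective).2 hr0, ?_⟩
    have h1 : f (aeval x r) = aeval (f x) (r.map g) := by
      rw [aeval_def, aeval_def, eval₂_map, hom_eval₂]
      rfl
    rw [← h1, hr, map_zero]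
  obtain ⟨x, hx1, hx2, hx3⟩ := hN₀ (consts D) E (overConsts D) (p.map f) (q.map f) (im f P) hnd
    (by rw [im_card]; exact hcard)
  have h1 : ∀ l, ∃ z ∈ P, f z = x l := fun l => (mem_im f).1 (hx2 l)
  choose z hz1 hz2 using h1
  refine ⟨z, fun l l' hll' => hx1 ?_, hz1, ?_⟩
  · rw [← hz2 l, ← hz2 l', hll']
  · have e1 : (fun l => algebraMap K E (z l)) = x := funext hz2
    have e2 : (fun l => D (algebraMap K E (z l))) = fun l => overConsts D (x l) := by
      funext l
      rw [overConsts_apply, ← hz2 l]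
    rw [e1, e2]
    exact hx3

/-- `Phi` as a homogeneous polynomial in the values of the derivation -/
theorem phi_poly {k K : Type} [Field k] [CharZero k] [Field K] [Algebra k K] {a b : ℕ}
    (φ : II a b → ℕ × ℕ) (E₀ d : ℕ) (α : K → K) (p q : K[X]) (x : II a b → K) {w : ℕ}
    {t : Fin w → K} (ht : IsTranscendenceBasis k t) :
    ∃ Q : MvPolynomial (Fin w) K,
      Q.IsHomogeneous (2 * ((a + 1) * (b + 1) - 1) * b * (E₀ * (d * (d - 1))) * cst φ) ∧
      ∀ D : Derivation k K K, Phi φ E₀ d α p q x D = MvPolynomial.eval (fun j => D (t j)) Q := by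
  classical
  set e1 := 2 * ((a + 1) * (b + 1) - 1) * b * (E₀ * (d * (d - 1))) with he1
  obtain ⟨δ, hδ⟩ := exists_dual ht
  let Y : II a b → MvPolynomial (Fin w) K := fun l =>
    ∑ j, MvPolynomial.C (δ j (x l)) * MvPolynomial.X j
  let cc : K := pprod (gfn E₀ d α p q) x ^ (4 * ((a + 1) * (b + 1) - 1)) /
    pprod (fun z z' => z - z') x ^ ((a + b) * b * (E₀ * (d * (d - 1))))
  refine ⟨wro φ (fun l => MvPolynomial.C (x l)) Y ^ e1 * MvPolynomial.C cc, ?_, fun D => ?_⟩
  · have h1 := wro_hom φ x Y (fun l => by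
      refine MvPolynomial.IsHomogeneous.sum _ _ _ fun j _ => ?_
      have h3 := (MvPolynomial.isHomogeneous_C (Fin w) (δ j (x l))).mul
        (MvPolynomial.isHomogeneous_X K j)
      rwa [zero_add] at h3)
    have h2 := (h1.pow e1).mul (MvPolynomial.isHomogeneous_C (Fin w) cc)
    rw [add_zero, mul_comm (cst φ)] at h2
    exact h2
  · rw [map_mul, map_pow, MvPolynomial.eval_C, map_wro]
    have h1 : (fun l => MvPolynomial.eval (fun j => D (t j))
        (MvPolynomial.C (σ := Fin w) (x l))) = x := by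
      funext l
      rw [MvPolynomial.eval_C]
    have h2 : (fun l => MvPolynomial.eval (fun j => D (t j)) (Y l)) = fun l => D (x l) := by
      funext l
      have h3 := der_expand ht hδ D (x l)
      simp only [Algebra.algebraMap_self, RingHom.id_apply] at h3
      rw [h3]
      show MvPolynomial.eval _ (∑ j, _) = _
      rw [map_sum]
      refine Finset.sum_congr rfl fun j _ => ?_
      rw [map_mul, MvPolynomial.eval_C, MvPolynomial.eval_X, mul_comm]
    rw [h1, h2]
    unfold Phi
    rw [mul_div_assoc]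

/-- the form `Phi` does not vanish if the Wronskian does not -/
theorem phi_ne {k K : Type} [Field k] [CharZero k] [Field K] [Algebra k K] {a b : ℕ}
    (φ : II a b → ℕ × ℕ) (E₀ d : ℕ) (hd : 2 ≤ d) {α : K → K} (hα : ∀ z, α z ≠ 0) {p q : K[X]}
    (hp : p.natDegree ≤ d) (hq : q.natDegree = d) (hpq : IsCoprime p q) {x : II a b → K}
    (hx : Function.Injective x) {D : Derivation k K K} (h : wro φ x (fun l => D (x l)) ≠ 0) :
    Phi φ E₀ d α p q x D ≠ 0 := by
  have : CharZero K := charZero_of_injective_algebraMap (algebraMap k K).injective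
  have hg : ∀ (g : K → K → K), (∀ z z', z ≠ z' → g z z' ≠ 0) → pprod g x ≠ 0 := by
    intro g hg
    unfold pprod
    refine Finset.prod_ne_zero_iff.2 fun l _ => Finset.prod_ne_zero_iff.2 fun m hm => ?_
    exact hg _ _ fun h => (Finset.ne_of_mem_erase hm) (hx h).symm
  unfold Phi
  refine div_ne_zero (mul_ne_zero (pow_ne_zero _ h) (pow_ne_zero _ (hg _ ?_)))
    (pow_ne_zero _ (hg _ ?_))
  · intro z z' hzz
    unfold gfn
    refine div_ne_zero (mul_ne_zero (pow_ne_zero _ (sub_ne_zero.2 hzz)) (pow_ne_zero _ ?_))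
      (pow_ne_zero _ (mul_ne_zero (hα z) (hα z')))
    exact Pool.Agent.W277.UH.res_ne d p q hp hq (by omega) hpq
  · intro z z' hzz
    exact sub_ne_zero.2 hzz

/-- the values of a derivation as linear functions of the derivation -/
def evalAt {k K : Type} [Field k] [Field K] [Algebra k K] (t : K) : Derivation k K K →ₗ[K] K where
  toFun D := D t
  map_add' D D' := by rw [Derivation.add_apply]
  map_smul' c D := by rw [Derivation.smul_apply]; rfl

lemma derReg_sum {k K : Type} [Field k] [Field K] [Algebra k K] {v : Place k K} {m : ℕ}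
    {D : Fin m → Derivation k K K} (hD : ∀ j, DerReg v (D j)) (T : Finset (Fin m)) :
    DerReg v (∑ i ∈ T, D i) := by
  classical
  induction T using Finset.induction_on with
  | empty =>
    intro f _
    rw [Finset.sum_empty]
    exact Or.inl rfl
  | insert i T hi ih =>
    intro f hf
    rw [Finset.sum_insert hi, Derivation.add_apply]
    exact v.reg_add (hD i f hf) (ih f hf)

lemma reg_sum {k K : Type} [Field k] [Field K] [Algebra k K] (v : Place k K) {ι : Type}
    (T : Finset ι) (f : ι → K) (hf : ∀ i ∈ T, v.Reg (f i)) : v.Reg (∑ i ∈ T, f i) := by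
  classical
  induction T using Finset.induction_on with
  | empty =>
    rw [Finset.sum_empty]
    exact Or.inl rfl
  | insert i T hi ih =>
    rw [Finset.sum_insert hi]
    exact v.reg_add (hf i (mem_insert_self i T)) (ih fun j hj => hf j (mem_insert_of_mem hj))

/-- **Symmetric differentials which do not vanish at a given vector field.** -/
theorem sym_ne (d : ℕ) (hd : 2 ≤ d) : ∃ B : ℕ, ∀ (k L : Type) [Field k] [CharZero k] [Field L]
    [Algebra k L] (w : ℕ), Algebra.trdeg k L = w → ∀ (E : IntermediateField k L) (p q : E[X])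
    (P : Finset E), p.natDegree ≤ d → q.natDegree = d → IsCoprime p q → Stab p q P →
    B ≤ P.card → Algebra.IsAlgebraic (IntermediateField.adjoin k (crs P)) E →
    ∀ D : Derivation k L L, (∃ y ∈ E, D y ≠ 0) →
    ∃ m : ℕ, 1 ≤ m ∧ ∃ ω : MultilinearMap L (fun _ : Fin m => Derivation k L L) L,
      (∀ (σ : Equiv.Perm (Fin m)) (D' : Fin m → Derivation k L L), ω (fun i => D' (σ i)) = ω D') ∧
      (∀ (v : Place k L) (D' : Fin m → Derivation k L L), (∀ j, DerReg v (D' j)) →
        v.Reg (ω D')) ∧ ω (fun _ => D) ≠ 0 := by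
  classical
  obtain ⟨a, b, φ, hb, hba, ha2, hφ, hcst, hO⟩ := a_ords d hd
  obtain ⟨N₀, hN₀⟩ := ndw_ext d a b φ hd hφ
  obtain ⟨N'', hN''⟩ := Pool.Agent.Q24.SU.t_red.{0} d (max N₀ (3 * d + 4)) (by omega)
  refine ⟨N'', ?_⟩
  intro k L _ _ _ _ w htr E p q P hp hq hpq hP hcard halg D hD
  have : CharZero L := charZero_of_injective_algebraMap (algebraMap k L).injective
  obtain ⟨P', hP'P, hP', hcard', hsur⟩ := hN'' E p q hp hq hpq P hP hcard
  have halg' := a_crs k E d p q hd hp hq hpq P P' hP'P hP hP'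
    ((le_max_right _ _).trans hcard') halg
  obtain ⟨E₀, C', hE₀, hO⟩ := hO P'.card
  set f : E →+* L := algebraMap E L with hf
  have hpL : (p.map f).natDegree ≤ d := by rw [natDegree_map]; exact hp
  have hqL : (q.map f).natDegree = d := by rw [natDegree_map]; exact hq
  have hcoL : IsCoprime (p.map f) (q.map f) := hpq.map (mapRingHom f)
  obtain ⟨α, R, hα, hPhi, -⟩ := hO k L (p.map f) (q.map f) hpL hqL hcoL (im f P')
    (stab_im f hP') (im_card f P')
  obtain ⟨t, ht⟩ := basis_of_trdeg htr
  -- the derivation of the algebraic closure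
  set Ω := AlgebraicClosure L with hΩ
  have htΩ : IsTranscendenceBasis k (algebraMap L Ω ∘ t) := ht.algebraMap_comp
  obtain ⟨DΩ, hDΩ⟩ := exists_der (algebraMap L Ω ∘ t) htΩ fun j => algebraMap L Ω (D (t j))
  obtain ⟨δ, hδ⟩ := exists_dual ht
  have hext : ∀ y : L, DΩ (algebraMap L Ω y) = algebraMap L Ω (D y) := by
    intro y
    rw [der_expand ht hδ DΩ y]
    have h3 := der_expand ht hδ D y
    simp only [Algebra.algebraMap_self, RingHom.id_apply] at h3
    rw [h3, map_sum]
    refine Finset.sum_congr rfl fun j _ => ?_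
    rw [map_mul]
    congr 1
    exact hDΩ j
  obtain ⟨y, hyE, hy⟩ := hD
  obtain ⟨x, hx1, hx2, hx3⟩ := hN₀ k E Ω p q hp hq hpq P' hP' hsur
    ((le_max_left _ _).trans hcard') halg' DΩ ⟨⟨y, hyE⟩, by
      have h4 : algebraMap E Ω ⟨y, hyE⟩ = algebraMap L Ω y := rfl
      rw [h4, hext]
      exact (_root_.map_ne_zero _).2 hy⟩
  set xL : II a b → L := fun l => f (x l) with hxL
  have hxLinj : Function.Injective xL := f.injective.comp hx1
  have hxLP : ∀ l, xL l ∈ im f P' := fun l => (mem_im f).2 ⟨x l, hx2 l, rfl⟩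
  have hwro : wro φ xL (fun l => D (xL l)) ≠ 0 := by
    intro h0
    apply hx3
    have h1 := map_wro (algebraMap L Ω) φ xL (fun l => D (xL l))
    rw [h0, map_zero] at h1
    have h2 : (fun l => algebraMap L Ω (D (xL l))) = fun l => DΩ (algebraMap E Ω (x l)) := by
      funext l
      rw [← hext]
      rfl
    rw [h2] at h1
    exact h1.symm
  have hne : Phi φ E₀ d α (p.map f) (q.map f) xL D ≠ 0 :=
    phi_ne φ E₀ d hd hα hpL hqL hcoL hxLinj hwro
  obtain ⟨Q, hQ, hQD⟩ := phi_poly (k := k) φ E₀ d α (p.map f) (q.map f) xL ht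
  obtain ⟨A₀, hA₀⟩ := exists_multi (V := Derivation k L L) Q hQ fun j => evalAt (t j)
  have hA₀' : ∀ D' : Derivation k L L, A₀ (fun _ => D') = Phi φ E₀ d α (p.map f) (q.map f) xL D' := by
    intro D'
    rw [hA₀, hQD]
    rfl
  obtain ⟨A, hA1, hA2, hA3⟩ := polar A₀
  refine ⟨_, ?_, A, hA2, ?_, ?_⟩
  · have h1 : 1 ≤ (a + 1) * (b + 1) - 1 := by
      have : 2 * 2 ≤ (a + 1) * (b + 1) := Nat.mul_le_mul (by omega) (by omega)
      omega
    have h2 : 1 ≤ d * (d - 1) := by
      have : 1 * 1 ≤ d * (d - 1) := Nat.mul_le_mul (by omega) (by omega)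
      omega
    exact Nat.mul_pos (Nat.mul_pos (Nat.mul_pos (Nat.mul_pos two_pos h1) hb) (Nat.mul_pos hE₀ h2))
      hcst
  · intro v D' hD'
    rw [hA1]
    refine reg_sum v _ _ fun T _ => v.reg_mul ?_ ?_
    · have h1 : ((-1 : L) ^ T.card) = algebraMap k L ((-1) ^ T.card) := by simp
      rw [h1]
      exact v.reg_const _
    · rw [hA₀']
      have h1 := hPhi v _ (derReg_sum hD' Tᶜ) xL hxLinj hxLP
      rcases h1 with h1 | h1
      · exact Or.inl h1
      · right
        have h2 : (0 : ℤ) ≤ (R v : ℤ) := Int.natCast_nonneg _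
        exact h2.trans h1
  · rw [hA3, hA₀']
    refine mul_ne_zero ?_ hne
    exact_mod_cast Nat.factorial_ne_zero _

end Pool.Agent.Q103.VR
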